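import Pool.Agent.helper20.MF.Glue3
import Pool.Agent.MF.EndAlg
import Pool.Agent.MF.LemT

set_option autoImplicit false
set_option linter.unusedSectionVars false
set_option linter.unusedVariables false

/-!
# MP_141f81, Section 9: the global sections of the square and of the labels, their kernels and relations

`Labels` collects the sections `φ`, `g`, `s`, `Θ`, `Z` of the correspondences of the role maps `sq`, `g`, `s`, `th`,
`ze` at the empty type, with the bounds which `EndX` needs.  `exists_labels` gives them with one constant.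
-/

namespace Pool.Agent.helper39.MF

open Finset Pool.Agent.MF Helper34MF Pool.Agent.helper20.MF

section

variable {N : Type} [AddCommGroup N] [Fintype N] [DecidableEq N]

/-- The global sections and what is known about them.  `L` = the roles of one level. -/
structure Labels (M : Mat N) {n : ℕ} {U : Type} [AddCommGroup U] (π : N → Fin n → U) (L : Finset N)
    (S : Finset (N → Fin n)) (sq th ze g s : N → N) (φ G Y Θ Z : AddMonoid.End U) (K : ℕ) : Prop where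
  oφ : ∀ η, Op (Hc M π ∅ L (sub S ∅ η) sq) φ K
  oG : ∀ η, Op (Hc M π ∅ L (sub S ∅ η) g) G K
  oY : ∀ η, Op (Hc M π ∅ L (sub S ∅ η) s) Y K
  oΘ : ∀ η, Op (Hc M π ∅ L (sub S ∅ η) th) Θ K
  oZ : ∀ η, Op (Hc M π ∅ L (sub S ∅ η) ze) Z K
  kφ : Nat.card (LemT.kr φ) ≤ K
  kφ1 : Nat.card (LemT.kr (φ + 1)) ≤ K
  kg : Nat.card (LemT.kr G) ≤ K
  ks : Nat.card (LemT.kr Y) ≤ K
  kΘ : Nat.card (LemT.kr Θ) ≤ K
  kZ : Nat.card (LemT.kr Z) ≤ K
  gT : LemT.nr (G * Θ + Z * Θ * G) ≤ K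
  sT : LemT.nr (Y * (Θ * Θ * Θ) + Θ * Y) ≤ K
  zT : LemT.nr (Z * Θ + Θ * Z) ≤ K
  zz : LemT.nr (Z * Z + Z + 1) ≤ K

theorem Op.mono' {U : Type} [AddCommGroup U] {H : AddSubgroup (U × U)} {A : U →+ U} {K K' : ℕ}
    (h : Op H A K) (hK : K ≤ K') : Op H A K' :=
  ⟨⟨h.sec.mem, h.sec.le.trans hK⟩, h.dom.trans hK, h.rng.trans hK, h.ker.trans hK,
    h.card.trans (Nat.mul_le_mul_right _ hK)⟩

variable {M : Mat N} {Lin : Finset N} {J : ℕ} {D : ℕ → AddSubgroup N} {mul : N → N → N}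
  {sq th ze g s : N → N}

theorem lev_mono (hE : EndAlg M Lin J D mul sq th ze g s) {t t' : ℕ} (h : t ≤ t') (h' : t' ≤ J) : D t ≤ D t' := by
  induction t', h using Nat.le_induction with
  | base => exact le_rfl
  | succ k hk ih => exact (ih (by omega)).trans (hE.mono k (by omega))

/-- the role map `f` between the levels -/
structure Lv (M : Mat N) (J : ℕ) (D : ℕ → AddSubgroup N) (f : N → N) : Prop where
  mem : ∀ t, t < J → ∀ u ∈ D t, f u ∈ D (t + 1)
  add : ∀ t, t < J → ∀ u ∈ D t, ∀ v ∈ D t, f (u + v) = f u + f v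
  cl : ∀ t, t < J → ∀ v ∈ D t, M.InCl {v} (f v)
  cl' : ∀ t, t < J → ∀ v ∈ D t, M.InCl {f v} v

theorem lv_sq (hE : EndAlg M Lin J D mul sq th ze g s) : Lv M J D sq := ⟨hE.sq_mem, hE.sq_add, hE.sq_cl, hE.sq_cl'⟩
theorem lv_th (hE : EndAlg M Lin J D mul sq th ze g s) : Lv M J D th := ⟨hE.th_mem, hE.th_add, hE.th_cl, hE.th_cl'⟩
theorem lv_ze (hE : EndAlg M Lin J D mul sq th ze g s) : Lv M J D ze := ⟨hE.ze_mem, hE.ze_add, hE.ze_cl, hE.ze_cl'⟩
theorem lv_g (hE : EndAlg M Lin J D mul sq th ze g s) : Lv M J D g := ⟨hE.g_mem, hE.g_add, hE.g_cl, hE.g_cl'⟩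
theorem lv_s (hE : EndAlg M Lin J D mul sq th ze g s) : Lv M J D s := ⟨hE.s_mem, hE.s_add, hE.s_cl, hE.s_cl'⟩

/-- the role map `f` on the level `t`, with values in the level `t'` -/
structure LvA (M : Mat N) (D : ℕ → AddSubgroup N) (f : N → N) (t t' : ℕ) : Prop where
  mem : ∀ u ∈ D t, f u ∈ D t'
  add : ∀ u ∈ D t, ∀ v ∈ D t, f (u + v) = f u + f v
  cl : ∀ v ∈ D t, M.InCl {v} (f v)
  cl' : ∀ v ∈ D t, M.InCl {f v} v

theorem Lv.at {f : N → N} (h : Lv M J D f) {t : ℕ} (ht : t < J) : LvA M D f t (t + 1) :=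
  ⟨h.mem t ht, h.add t ht, h.cl t ht, h.cl' t ht⟩

theorem LvA.comp {f f' : N → N} {t t' t'' : ℕ} (h : LvA M D f t t') (h' : LvA M D f' t' t'') :
    LvA M D (fun v => f' (f v)) t t'' := by
  refine ⟨fun u hu => h'.mem _ (h.mem u hu), fun u hu v hv => ?_, fun v hv => ?_, fun v hv => ?_⟩
  · show f' (f (u + v)) = f' (f u) + f' (f v)
    rw [h.add u hu v hv, h'.add _ (h.mem u hu) _ (h.mem v hv)]
  · refine (h'.cl _ (h.mem v hv)).trans fun x hx => ?_
    rw [mem_singleton] at hx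
    subst hx
    exact h.cl v hv
  · refine (h.cl' v hv).trans fun x hx => ?_
    rw [mem_singleton] at hx
    subst hx
    exact h'.cl' _ (h.mem v hv)

theorem LvA.roleOK {f : N → N} {t t' : ℕ} (h : LvA M D f t t') {L : Finset N} (hL : ∀ v, v ∈ L ↔ v ∈ D t)
    (hLin : ∀ v ∈ Lin, v ∈ D t) : RoleOK M Lin ∅ L f := by
  refine ⟨by rw [M.rk_empty]; omega, fun v hv => (hL v).2 (hLin v hv), fun u hu v hv => ?_, fun u hu v hv => ?_,
    fun v hv => ?_, fun v hv => ?_⟩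
  · rw [hL] at hu hv ⊢
    exact (D t).add_mem hu hv
  · rw [hL] at hu hv
    exact h.add u hu v hv
  · rw [hL] at hv
    exact h.cl v hv
  · rw [hL] at hv
    exact h.cl' v hv

theorem LvA.into {f : N → N} {t t' : ℕ} (h : LvA M D f t t') {L L' : Finset N} (hL : ∀ v, v ∈ L ↔ v ∈ D t)
    (hL' : ∀ v ∈ D t', v ∈ L') : Into M ∅ L ∅ L' f := by
  refine ⟨fun w hw => absurd hw (notMem_empty w), fun v hv => ?_, fun v hv => ?_⟩
  · rw [hL] at hv
    exact hL' _ (h.mem v hv)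
  · rw [hL] at hv
    exact h.cl' v hv

theorem sub_empty {n : ℕ} (S : Finset (N → Fin n)) (η : N → Fin n) : sub S ∅ η = S := by
  ext ρ
  rw [Pool.Agent.helper20.MF.mem_sub]
  exact ⟨fun h => h.1, fun h => ⟨h, fun w hw => absurd hw (notMem_empty w)⟩⟩

theorem exists_row {n T : ℕ} {R S : Finset (N → Fin n)} {U : Type} [AddCommGroup U] [Fintype U] [DecidableEq U]
    {π : N → Fin n → U} (h : EMOut M n T R S U π) : ∃ η, η ∈ S := by
  obtain ⟨κ, hκ, hJ⟩ := h.jc
  have hn : 0 < n := by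
    have h1 := h.cardU
    have h2 : 0 < Fintype.card U := Fintype.card_pos
    rcases Nat.eq_zero_or_pos n with hn | hn
    · rw [hn, mul_zero] at h1
      omega
    · exact hn
  have hκ' : 0 < κ := by
    by_contra hc
    have : κ * (T : ℝ) ≤ 0 := mul_nonpos_of_nonpos_of_nonneg (not_lt.1 hc) (Nat.cast_nonneg T)
    linarith
  have h1 : 0 < κ * (n : ℝ) ^ M.r := by positivity
  have h2 : (0 : ℝ) < (S.card : ℝ) := lt_of_lt_of_le h1 hJ.2.1
  have h3 : 0 < S.card := by exact_mod_cast h2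
  exact card_pos.1 h3

/-- the identity is a section of the correspondence of the identity -/
theorem sec_id {n : ℕ} {U : Type} [AddCommGroup U] (π : N → Fin n → U) (τ L : Finset N) (P : Finset (N → Fin n)) :
    Sec (Hc M π τ L P (fun v => v)) (AddMonoidHom.id U) 1 := by
  have hd : ∀ w ∈ Hc M π τ L P (fun v => v), w.1 = w.2 := by
    intro w hw
    have h1 : Hc M π τ L P (fun v => v) ≤ ((AddMonoidHom.fst U U) - (AddMonoidHom.snd U U)).ker := by
      unfold Hc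
      rw [AddSubgroup.closure_le]
      rintro w ⟨ρ, hρ, v, hv, hv', rfl⟩
      show π v (ρ v) - π v (ρ v) = 0
      exact sub_self _
    have h2 : w.1 - w.2 = 0 := h1 hw
    exact sub_eq_zero.1 h2
  refine ⟨fun x hx => ?_, ?_⟩
  · rw [mem_pr1] at hx
    obtain ⟨y, hy⟩ := hx
    have h1 : x = y := hd _ hy
    subst h1
    exact hy
  · have h1 : {y : U | ((0 : U), y) ∈ Hc M π τ L P (fun v => v)} ⊆ {0} := by
      intro y hy
      have h2 : (0 : U) = y := hd _ hy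
      exact h2.symm
    exact (Set.ncard_le_ncard h1 (Set.toFinite _)).trans (by rw [Set.ncard_singleton])

end

section

variable {N : Type} [AddCommGroup N] [Fintype N] [DecidableEq N]

/-- **The global sections of the square and of the labels**, with kernels and relations; one constant. -/
theorem exists_labels (hSub : StmtSub) (M : Mat N) (Lin : Finset N) (hLin : LinPart M Lin) {J : ℕ}
    {D : ℕ → AddSubgroup N} {mul : N → N → N} {sq th ze g s : N → N} (hE : EndAlg M Lin J D mul sq th ze g s)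
    (t0 : ℕ) (ht0 : 3 ≤ t0) (hJ : t0 < J) (L : Finset N) (hL : ∀ v, v ∈ L ↔ v ∈ D t0) (T : ℕ) :
    ∃ K : ℕ, 1 ≤ K ∧ ∀ (n : ℕ) (R S : Finset (N → Fin n)) (U : Type) (_ : AddCommGroup U) (_ : Fintype U)
      (_ : DecidableEq U) (π : N → Fin n → U), EMOut M n T R S U π →
      ∃ φ G Y Θ Z : AddMonoid.End U, Labels M π L S sq th ze g s φ G Y Θ Z K := by
  classical
  obtain ⟨K1, hK1, hop⟩ := exists_op hSub M Lin hLin T
  set c3 : ℕ := T ^ 3 * (K1 * K1 * K1) with hc3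
  set c4 : ℕ := T ^ 3 * (K1 * K1 * (K1 * K1)) with hc4
  set c5 : ℕ := T ^ 3 * (K1 * K1 * 1) with hc5
  set c6 : ℕ := T ^ 3 * (K1 * 1 * K1) with hc6
  set K : ℕ := K1 + c4 * c3 + c3 * c3 * c4 + c3 * c5 + c6 * K1 + c4 with hK
  refine ⟨K, by omega, ?_⟩
  intro n R S U i1 i2 i3 π h
  obtain ⟨η, hη⟩ := exists_row h
  have two := h.two
  -- the levels
  set L0 : Finset N := univ.filter (fun v => v ∈ D 0) with hL0
  set L1 : Finset N := univ.filter (fun v => v ∈ D 1) with hL1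
  have hL0' : ∀ v, v ∈ L0 ↔ v ∈ D 0 := fun v => by rw [hL0, mem_filter]; exact ⟨fun h => h.2, fun h => ⟨mem_univ _, h⟩⟩
  have hL1' : ∀ v, v ∈ L1 ↔ v ∈ D 1 := fun v => by rw [hL1, mem_filter]; exact ⟨fun h => h.2, fun h => ⟨mem_univ _, h⟩⟩
  have m : ∀ t t', t ≤ t' → t' ≤ J → ∀ v ∈ D t, v ∈ D t' := fun t t' h1 h2 v hv => lev_mono hE h1 h2 hv
  have l0 : ∀ v ∈ Lin, v ∈ D 0 := fun v hv => (hE.lin v).2 hv
  have lL : ∀ v ∈ Lin, v ∈ D t0 := fun v hv => m 0 t0 (by omega) (by omega) v (l0 v hv)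
  have l1 : ∀ v ∈ Lin, v ∈ D 1 := fun v hv => m 0 1 (by omega) (by omega) v (l0 v hv)
  have toL : ∀ t, t ≤ t0 → ∀ v ∈ D t, v ∈ L := fun t h1 v hv => (hL v).2 (m t t0 h1 (by omega) v hv)
  have hout : ∃ v ∈ L0, ¬ M.InCl ∅ v := by
    obtain ⟨v, hv, hv'⟩ := exists_out (τ := ∅) hLin (by rw [M.rk_empty]; omega)
    exact ⟨v, (hL0' v).2 (l0 v hv), hv'⟩
  have hout1 : ∃ v ∈ L1, ¬ M.InCl ∅ v := by
    obtain ⟨v, hv, hv'⟩ := exists_out (τ := ∅) hLin (by rw [M.rk_empty]; omega)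
    exact ⟨v, (hL1' v).2 (l1 v hv), hv'⟩
  -- the role maps
  have vsq := lv_sq hE
  have vth := lv_th hE
  have vze := lv_ze hE
  have vg := lv_g hE
  have vs := lv_s hE
  have th0 := vth.at (t := 0) (by omega)
  have th1 := vth.at (t := 1) (by omega)
  have th2 := vth.at (t := 2) (by omega)
  have ze0 := vze.at (t := 0) (by omega)
  have ze1 := vze.at (t := 1) (by omega)
  have ze2 := vze.at (t := 2) (by omega)
  have g0 := vg.at (t := 0) (by omega)
  have s0 := vs.at (t := 0) (by omega)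
  have zt := th1.comp ze2
  have tt := th1.comp th2
  have ttt := (th0.comp th1).comp th2
  have zz := ze0.comp ze1
  have as : LvA M D (fun v => v + sq v) 0 1 := by
    refine ⟨fun u hu => (D 1).add_mem (m 0 1 (by omega) (by omega) u hu) (vsq.mem 0 (by omega) u hu),
      fun u hu v hv => ?_, fun v hv => ?_, fun v hv => hE.as_cl 0 (by omega) v hv⟩
    · show u + v + sq (u + v) = u + sq u + (v + sq v)
      rw [vsq.add 0 (by omega) u hu v hv]
      abel
    · exact Mat.InCl.add (incl_mem (mem_singleton_self _)) (vsq.cl 0 (by omega) v hv)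
  -- the sections
  obtain ⟨φ, hφ⟩ := hop n R S U i1 i2 i3 π h ∅ L sq ((vsq.at hJ).roleOK hL lL) η hη
  obtain ⟨G, hG⟩ := hop n R S U i1 i2 i3 π h ∅ L g ((vg.at hJ).roleOK hL lL) η hη
  obtain ⟨Y, hY⟩ := hop n R S U i1 i2 i3 π h ∅ L s ((vs.at hJ).roleOK hL lL) η hη
  obtain ⟨Θ, hΘ⟩ := hop n R S U i1 i2 i3 π h ∅ L th ((vth.at hJ).roleOK hL lL) η hη
  obtain ⟨Z, hZ⟩ := hop n R S U i1 i2 i3 π h ∅ L ze ((vze.at hJ).roleOK hL lL) η hη
  obtain ⟨Fas, hFas⟩ := hop n R S U i1 i2 i3 π h ∅ L0 _ (as.roleOK hL0' l0) η hη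
  obtain ⟨Fzt, hFzt⟩ := hop n R S U i1 i2 i3 π h ∅ L1 _ (zt.roleOK hL1' l1) η hη
  obtain ⟨Ftt, hFtt⟩ := hop n R S U i1 i2 i3 π h ∅ L1 _ (tt.roleOK hL1' l1) η hη
  obtain ⟨Fttt, hFttt⟩ := hop n R S U i1 i2 i3 π h ∅ L0 _ (ttt.roleOK hL0' l0) η hη
  obtain ⟨Fzz, hFzz⟩ := hop n R S U i1 i2 i3 π h ∅ L0 _ (zz.roleOK hL0' l0) η hη
  -- the identity between the levels
  have iL : Into M ∅ L0 ∅ L (fun v => v) :=
    Into.id (fun w hw => absurd hw (notMem_empty w)) fun v hv => toL 0 (by omega) v ((hL0' v).1 hv)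
  have i0 : Into M ∅ L0 ∅ L0 (fun v => v) := Into.id (fun w hw => absurd hw (notMem_empty w)) (Subset.refl _)
  have i1L : Into M ∅ L1 ∅ L (fun v => v) :=
    Into.id (fun w hw => absurd hw (notMem_empty w)) fun v hv => toL 1 (by omega) v ((hL1' v).1 hv)
  have i11 : Into M ∅ L1 ∅ L1 (fun v => v) := Into.id (fun w hw => absurd hw (notMem_empty w)) (Subset.refl _)
  -- the relations
  have r1 : Sim c3 ((Z : U →+ U).comp Θ) Fzt :=
    rel_comp h hη hout1 i1L (th1.into hL1' (toL 2 (by omega))) i11 hΘ.sec hZ.sec hFzt.sec fun v hv => rfl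
  have r2 : Sim c4 ((G : U →+ U).comp Θ) (Fzt.comp G) :=
    rel_square h hη hout iL (th0.into hL0' (toL 1 (by omega))) iL (g0.into hL0' fun v hv => (hL1' v).2 hv)
      hΘ.sec hG.sec hG.sec hFzt.sec fun v hv => hE.g_th 0 (by omega) v ((hL0' v).1 hv)
  have r3 : Sim c3 ((Θ : U →+ U).comp Θ) Ftt :=
    rel_comp h hη hout1 i1L (th1.into hL1' (toL 2 (by omega))) i11 hΘ.sec hΘ.sec hFtt.sec fun v hv => rfl
  have r4 : Sim c3 (Ftt.comp Θ) Fttt :=
    rel_comp h hη hout iL (th0.into hL0' fun v hv => (hL1' v).2 hv) i0 hΘ.sec hFtt.sec hFttt.sec fun v hv => rfl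
  have r5 : Sim c4 ((Y : U →+ U).comp Fttt) ((Θ : U →+ U).comp Y) :=
    rel_square h hη hout i0 (ttt.into hL0' (toL 3 (by omega))) iL (s0.into hL0' (toL 1 (by omega)))
      hFttt.sec hY.sec hY.sec hΘ.sec fun v hv => hE.s_th 0 (by omega) v ((hL0' v).1 hv)
  have r6 : Sim c4 ((Θ : U →+ U).comp Z) ((Z : U →+ U).comp Θ) :=
    rel_square h hη hout iL (ze0.into hL0' (toL 1 (by omega))) iL (th0.into hL0' (toL 1 (by omega)))
      hZ.sec hΘ.sec hΘ.sec hZ.sec fun v hv => hE.th_ze 0 (by omega) v ((hL0' v).1 hv)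
  have r7 : Sim c3 ((Z : U →+ U).comp Z) Fzz :=
    rel_comp h hη hout iL (ze0.into hL0' (toL 1 (by omega))) i0 hZ.sec hZ.sec hFzz.sec fun v hv => rfl
  have r8 : Nat.card (Fzz + (Z : U →+ U) + AddMonoidHom.id U).range ≤ c5 :=
    rel_three h hη hout i0 iL i0 hFzz.sec hZ.sec (sec_id π ∅ L0 (sub S ∅ η)) fun v hv =>
      hE.ze_ze 0 (by omega) v ((hL0' v).1 hv)
  have r9 : Nat.card ((φ : U →+ U) + AddMonoidHom.id U + (Fas : U →+ U)).range ≤ c6 :=
    rel_three h hη hout iL i0 i0 hφ.sec (sec_id π ∅ L0 (sub S ∅ η)) hFas.sec fun v hv => by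
      have h1 : sq v + v + (v + sq v) = (sq v + sq v) + (v + v) := by abel
      rw [h1, M.two, M.two, add_zero]
  have hall : ∀ (η' : N → Fin n) (f : N → N), Hc M π ∅ L (sub S ∅ η') f = Hc M π ∅ L (sub S ∅ η) f := by
    intro η' f
    rw [sub_empty, sub_empty]
  have a1 : K1 ≤ K := by omega
  have p1 : c4 * c3 ≤ K := by omega
  have p2 : c3 * c3 * c4 ≤ K := by omega
  have p3 : c3 * c5 ≤ K := by omega
  have p4 : c6 * K1 ≤ K := by omega
  have p5 : c4 ≤ K := by omega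
  refine ⟨φ, G, Y, Θ, Z, ?_⟩
  refine ⟨fun η' => ?_, fun η' => ?_, fun η' => ?_, fun η' => ?_, fun η' => ?_, hφ.ker.trans a1, ?_,
    hG.ker.trans a1, hY.ker.trans a1, hΘ.ker.trans a1, hZ.ker.trans a1, ?_, ?_, ?_, ?_⟩
  · rw [hall]
    exact Op.mono' hφ a1
  · rw [hall]
    exact Op.mono' hG a1
  · rw [hall]
    exact Op.mono' hY a1
  · rw [hall]
    exact Op.mono' hΘ a1
  · rw [hall]
    exact Op.mono' hZ a1
  · -- the kernel of `φ + 1`
    refine le_trans ?_ p4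
    show Nat.card (LemT.kr (φ + AddMonoidHom.id U : U →+ U)) ≤ c6 * K1
    refine (LemT.card_le_ker (LemT.kr (φ + AddMonoidHom.id U : U →+ U)) (φ + AddMonoidHom.id U + Fas : U →+ U)
      r9).trans (Nat.mul_le_mul_left _ ?_)
    refine (LemT.card_mono ?_).trans hFas.ker
    rintro x ⟨hx, hx'⟩
    have e1 : (φ + AddMonoidHom.id U : U →+ U) x = 0 := hx
    have e2 : (φ + AddMonoidHom.id U : U →+ U) x + Fas x = 0 := hx'
    rw [e1, zero_add] at e2
    exact e2
  · refine le_trans ?_ p1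
    exact r2.trans two (r1.comp_right G).symm
  · refine le_trans ?_ p2
    have h1 : Sim (c3 * c3) (((Θ : U →+ U).comp Θ).comp Θ) Fttt := (r3.comp_right Θ).trans two r4
    exact (h1.comp_left (Y : U →+ U)).trans two r5
  · refine le_trans ?_ p5
    exact r6.symm
  · refine le_trans ?_ p3
    have e : ((Z : U →+ U).comp Z + Z + AddMonoidHom.id U : U →+ U) =
        ((Z : U →+ U).comp Z + Fzz) + (Fzz + (Z : U →+ U) + AddMonoidHom.id U) := by
      calc ((Z : U →+ U).comp Z + Z + AddMonoidHom.id U : U →+ U)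
          = (Z : U →+ U).comp Z + 0 + Z + AddMonoidHom.id U := by rw [add_zero]
        _ = (Z : U →+ U).comp Z + (Fzz + Fzz) + Z + AddMonoidHom.id U := by rw [map_two two]
        _ = _ := by abel
    show Nat.card ((Z : U →+ U).comp Z + Z + AddMonoidHom.id U : U →+ U).range ≤ _
    rw [e]
    exact (card_range_add_le _ _).trans (Nat.mul_le_mul r7 r8)

end

end Pool.Agent.helper39.MF
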